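import Pool.Agent.LibMS9.Final

/-!
# MP_70d7ca_ag: quotient stacks as moduli stacks of polarized manifolds

The answer to Q1 is negative. The reason: the condition that the geometric fibres of a family
`X ⟶ S` belong to a class does not see the `ℂ`-structure of `S` infinitesimally. If `𝒳` is the
moduli stack of a class of polarized manifolds, `D` is a derivation of the field `ℂ` and
`τ : ℂ ⟶ ℂ[ε]`, `a ↦ a + D(a) ε`, then a family over `S` pulls back to a family over `S[ε]`, and
this is also a family over the `ℂ`-scheme which has the structure morphism twisted by `τ`. So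
every object of `𝒳` over `S` extends to `S[ε]` with the twisted structure
(`Pool.Agent.MS9.exists_extension`), that is, every derivation of `ℂ` lifts to `𝒳`. But no
derivation `D` of `ℂ` with `D(λ) ≠ 0` lifts to the cone `x³ + y³ + z³ = 3λxyz` without its vertex.
-/

set_option autoImplicit false

open CategoryTheory AlgebraicGeometry CartesianMonoidalCategory

namespace Pool.Agent.Results.MP_70d7ca_ag.NegativeAnswer

open Pool.Agent.MS9

/-- **Not every quotient stack is a moduli stack of polarized manifolds.**

(1) For every group scheme `G` locally of finite type over `ℂ` (for example for the trivial group,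
and for every linear algebraic group) there are a smooth quasi-affine scheme `Z` of finite type
over `ℂ` and an action of `G` on `Z` such that the quotient stack `[Z/G]` is not isomorphic to
the moduli stack `𝓜_𝒞` for any class `𝒞` of polarized manifolds.

(2) Let `λ` be a transcendental number and let `Z_λ` be the cone `x³ + y³ + z³ = 3λxyz` without
its vertex, a smooth quasi-affine surface. Let `W` be any scheme with an action of such a group
scheme `G` which has an invariant morphism to `Z_λ` with a section, for example `Z_λ × V` for
a scheme `V` with an action of `G` and with a `ℂ`-point, or `Z_λ × G`. Then the quotient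
stack `[W/G]` is not isomorphic to `𝓜_𝒞` for any class `𝒞` of polarized manifolds. -/
theorem result :
    (∀ (G : SchC) [GrpObj G] [LocallyOfFiniteType G.hom], ∃ (Z : SchC) (a : GAction G Z),
      Smooth Z.hom ∧ LocallyOfFiniteType Z.hom ∧ Z.left.IsQuasiAffine ∧
        ∀ (K : Conventions) (C : PolClass), ¬ IsModuliStackFor K C (QuotStack.proj K G a)) ∧
    (∀ lam : ℂ, Transcendental ℚ lam →
      (Smooth (coneZ lam).hom ∧ LocallyOfFiniteType (coneZ lam).hom ∧
        (coneZ lam).left.IsQuasiAffine) ∧
      ∀ (G : SchC) [GrpObj G] [LocallyOfFiniteType G.hom] (W : SchC) (a : GAction G W)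
        (ρ : W ⟶ coneZ lam) (s : coneZ lam ⟶ W), a.act ≫ ρ = snd G W ≫ ρ → s ≫ ρ = 𝟙 _ →
        ∀ (K : Conventions) (C : PolClass), ¬ IsModuliStackFor K C (QuotStack.proj K G a)) := by
  refine ⟨fun G _ _ => ?_, fun lam h => ⟨⟨cone_smooth lam h, cone_locallyOfFiniteType lam,
    cone_quasiAffine lam⟩, fun G _ _ W a ρ s hρ hs K C => cone_not_moduli lam h K C G W a ρ s
      hρ hs⟩⟩
  obtain ⟨lam, h⟩ := exists_transcendental
  exact ⟨coneZ lam, trivialAct G _, cone_smooth lam h, cone_locallyOfFiniteType lam,
    cone_quasiAffine lam, fun K C => cone_not_moduli lam h K C G _ (trivialAct G _) (𝟙 _) (𝟙 _)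
      rfl (Category.comp_id _)⟩

end Pool.Agent.Results.MP_70d7ca_ag.NegativeAnswer
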